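import Pool.Graph.R_pool_sql_team_seeded_3997aac3.Results.MP_29211c_nt.PlusMatrices
import Pool.Graph.R_pool_sql_team_seeded_3997aac3.Results.MP_29211c_nt.MinusMatrices

/-!
# MP_29211c_nt, Q1 and Q2 over every commutative ring

Both determinant evaluations hold for parameters `x, y, z, w` in an arbitrary commutative ring (also
of characteristic `2` or `p`, and with zero divisors), with integral coefficients; in particular the
numbers `a', b'` of Q2 are integers.
-/

set_option autoImplicit false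

namespace Pool.Agent.Results.MP_29211c_nt.EveryCommutativeRing

open NumberField Pool.Agent.H140.LD

universe u

/-- The determinant `D^+_p` over a commutative ring `R`. -/
noncomputable def Dplus {R : Type u} [CommRing R] (p : ℕ) [Fact p.Prime] (x y z w : R) : R :=
  (Matrix.of fun j k : Fin ((p - 1) / 2) =>
    x + ((legendreSym p (((j : ℕ) : ℤ) + ((k : ℕ) : ℤ)) : ℤ) : R) +
      ((legendreSym p ((j : ℕ) : ℤ) : ℤ) : R) * y + ((legendreSym p ((k : ℕ) : ℤ) : ℤ) : R) * z +
      ((legendreSym p (((j : ℕ) : ℤ) * ((k : ℕ) : ℤ)) : ℤ) : R) * w).det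

/-- The determinant `D^-_p` over a commutative ring `R`. -/
noncomputable def Dminus {R : Type u} [CommRing R] (p : ℕ) [Fact p.Prime] (x y z w : R) : R :=
  (Matrix.of fun j k : Fin ((p - 1) / 2) =>
    x + ((legendreSym p (((j : ℕ) : ℤ) - ((k : ℕ) : ℤ)) : ℤ) : R) +
      ((legendreSym p ((j : ℕ) : ℤ) : ℤ) : R) * y + ((legendreSym p ((k : ℕ) : ℤ) : ℤ) : R) * z +
      ((legendreSym p (((j : ℕ) : ℤ) * ((k : ℕ) : ℤ)) : ℤ) : R) * w).det

theorem map_Dplus {R S : Type*} [CommRing R] [CommRing S] (f : R →+* S) (p : ℕ) [Fact p.Prime]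
    (x y z w : R) : f (Dplus p x y z w) = Dplus p (f x) (f y) (f z) (f w) := by
  unfold Dplus
  rw [RingHom.map_det]
  congr 1
  ext j k
  simp

theorem map_Dminus {R S : Type*} [CommRing R] [CommRing S] (f : R →+* S) (p : ℕ) [Fact p.Prime]
    (x y z w : R) : f (Dminus p x y z w) = Dminus p (f x) (f y) (f z) (f w) := by
  unfold Dminus
  rw [RingHom.map_det]
  congr 1
  ext j k
  simp

/-- From integers to all commutative rings. -/
theorem transfer (F : ∀ {R : Type u} [CommRing R], R → R → R → R → R)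
    (F0 : ∀ {R : Type} [CommRing R], R → R → R → R → R)
    (hF : ∀ {R : Type} {S : Type u} [CommRing R] [CommRing S] (f : R →+* S) (x y z w : R),
      f (F0 x y z w) = F (f x) (f y) (f z) (f w))
    (hF0 : ∀ {R S : Type} [CommRing R] [CommRing S] (f : R →+* S) (x y z w : R),
      f (F0 x y z w) = F0 (f x) (f y) (f z) (f w)) (P Q : ℤ)
    (h : ∀ x y z w : ℤ, F0 x y z w = P * x + Q * (w * x - (y + 1) * (z + 1)))
    {R : Type u} [CommRing R] (x y z w : R) :
    F x y z w = P * x + Q * (w * x - (y + 1) * (z + 1)) := by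
  have key : F0 (MvPolynomial.X 0 : MvPolynomial (Fin 4) ℤ) (MvPolynomial.X 1) (MvPolynomial.X 2)
      (MvPolynomial.X 3) = (P : MvPolynomial (Fin 4) ℤ) * MvPolynomial.X 0 +
        (Q : MvPolynomial (Fin 4) ℤ) * (MvPolynomial.X 3 * MvPolynomial.X 0 -
          (MvPolynomial.X 1 + 1) * (MvPolynomial.X 2 + 1)) := by
    refine MvPolynomial.funext ?_
    intro v
    rw [hF0 (MvPolynomial.eval v)]
    simp only [MvPolynomial.eval_X, map_add, map_mul, map_sub, map_one, map_intCast]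
    rw [h]
    simp
  have h2 := congrArg (MvPolynomial.eval₂Hom (Int.castRingHom R) ![x, y, z, w]) key
  rw [hF] at h2
  simp only [map_add, map_mul, map_sub, map_one, map_intCast, MvPolynomial.eval₂Hom_X'] at h2
  simpa using h2

theorem result (p : ℕ) [Fact p.Prime] :
    -- Q1
    (3 < p →
      (p % 4 = 1 → ∀ (K : Type) [Field K] [NumberField K] (s : K) (σ : K →+* ℝ) (ε : (𝓞 K)ˣ)
        (a b : ℚ), FundUnit p K s σ ε →
        ((ε : 𝓞 K) : K) ^ classNumber K = a + b * s →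
        ∃ P Q : ℤ, (P : ℚ) = legendreSym p 2 * 2 ^ ((p - 3) / 2) * (p * b - 2 * a) ∧
          (Q : ℚ) = legendreSym p 2 * 2 ^ ((p - 3) / 2) * (a - 2 * b) ∧
          ∀ (R : Type u) [CommRing R] (x y z w : R),
            Dplus p x y z w = P * x + Q * (w * x - (y + 1) * (z + 1))) ∧
      (p % 4 = 3 → ∀ (R : Type u) [CommRing R] (x y z w : R), Dplus p x y z w =
        2 ^ ((p - 3) / 2) * ((w * x - (y + 1) * (z + 1)) - 2 * x))) ∧
    -- Q2
    (p ≠ 2 →
      (p % 4 = 1 → ∀ (K : Type) [Field K] [NumberField K] (s : K) (σ : K →+* ℝ) (ε : (𝓞 K)ˣ)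
        (a' b' : ℚ), FundUnit p K s σ ε →
        ((ε : 𝓞 K) : K) ^ ((2 - legendreSym p 2).toNat * classNumber K) = a' + b' * s →
        ∃ A B : ℤ, (A : ℚ) = a' ∧ (B : ℚ) = b' ∧
          ∀ (R : Type u) [CommRing R] (x y z w : R), Dminus p x y z w =
            -A * x - (legendreSym p 2 : ℤ) * B * (w * x - (y + 1) * (z + 1))) ∧
      (p % 4 = 3 → ∀ (R : Type u) [CommRing R] (x y z w : R), Dminus p x y z w = x)) := by
  have castP : ∀ x y z w : ℤ, ((Dplus p x y z w : ℤ) : ℂ) =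
      PlusMatrices.Dplus p (x : ℂ) y z w := fun x y z w =>
    map_Dplus (Int.castRingHom ℂ) p x y z w
  have castM : ∀ x y z w : ℤ, ((Dminus p x y z w : ℤ) : ℂ) =
      MinusMatrices.Dminus p (x : ℂ) y z w := fun x y z w =>
    map_Dminus (Int.castRingHom ℂ) p x y z w
  have trP : ∀ P Q : ℤ, (∀ x y z w : ℤ, (Dplus p x y z w : ℤ) =
      P * x + Q * (w * x - (y + 1) * (z + 1))) → ∀ (R : Type u) [CommRing R] (x y z w : R),
      Dplus p x y z w = P * x + Q * (w * x - (y + 1) * (z + 1)) := by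
    intro P Q h R _ x y z w
    exact transfer (fun x y z w => Dplus p x y z w) (fun x y z w => Dplus p x y z w)
      (fun f x y z w => map_Dplus f p x y z w) (fun f x y z w => map_Dplus f p x y z w) P Q h
      x y z w
  have trM : ∀ P Q : ℤ, (∀ x y z w : ℤ, (Dminus p x y z w : ℤ) =
      P * x + Q * (w * x - (y + 1) * (z + 1))) → ∀ (R : Type u) [CommRing R] (x y z w : R),
      Dminus p x y z w = P * x + Q * (w * x - (y + 1) * (z + 1)) := by
    intro P Q h R _ x y z w
    exact transfer (fun x y z w => Dminus p x y z w) (fun x y z w => Dminus p x y z w)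
      (fun f x y z w => map_Dminus f p x y z w) (fun f x y z w => map_Dminus f p x y z w) P Q h
      x y z w
  refine ⟨fun hp3 => ⟨?_, ?_⟩, fun hp2 => ⟨?_, ?_⟩⟩
  · intro h4 K _ _ s σ ε a b hF hab
    have H := (PlusMatrices.result p hp3).1 h4 K s σ ε a b hF hab
    have eP : ((Dplus p (1 : ℤ) (-1) (-1) 0 : ℤ) : ℚ) =
        legendreSym p 2 * 2 ^ ((p - 3) / 2) * (p * b - 2 * a) := by
      have h1 := castP 1 (-1) (-1) 0
      rw [H] at h1
      have h2 : (((Dplus p (1 : ℤ) (-1) (-1) 0 : ℤ) : ℚ) : ℂ) =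
          ((legendreSym p 2 * 2 ^ ((p - 3) / 2) * (p * b - 2 * a) : ℚ) : ℂ) := by
        push_cast at h1 ⊢
        rw [h1]
        ring
      exact_mod_cast h2
    have eQ : ((-(Dplus p (0 : ℤ) 0 0 0 : ℤ) : ℤ) : ℚ) =
        legendreSym p 2 * 2 ^ ((p - 3) / 2) * (a - 2 * b) := by
      have h1 := castP 0 0 0 0
      rw [H] at h1
      have h2 : (((-(Dplus p (0 : ℤ) 0 0 0 : ℤ) : ℤ) : ℚ) : ℂ) =
          ((legendreSym p 2 * 2 ^ ((p - 3) / 2) * (a - 2 * b) : ℚ) : ℂ) := by
        push_cast at h1 ⊢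
        rw [h1]
        ring
      exact_mod_cast h2
    refine ⟨_, _, eP, eQ, trP _ _ ?_⟩
    intro x y z w
    have h1 := castP x y z w
    rw [H] at h1
    have eP' : ((Dplus p (1 : ℤ) (-1) (-1) 0 : ℤ) : ℂ) =
        ((legendreSym p 2 * 2 ^ ((p - 3) / 2) * (p * b - 2 * a) : ℚ) : ℂ) := by
      rw [← eP]; push_cast; rfl
    have eQ' : ((-(Dplus p (0 : ℤ) 0 0 0 : ℤ) : ℤ) : ℂ) =
        ((legendreSym p 2 * 2 ^ ((p - 3) / 2) * (a - 2 * b) : ℚ) : ℂ) := by
      rw [← eQ]; push_cast; rfl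
    have h2 : ((Dplus p x y z w : ℤ) : ℂ) = ((Dplus p (1 : ℤ) (-1) (-1) 0 * x +
        -Dplus p (0 : ℤ) 0 0 0 * (w * x - (y + 1) * (z + 1)) : ℤ) : ℂ) := by
      rw [Int.cast_add, Int.cast_mul, Int.cast_mul, eP', eQ', h1]
      push_cast
      ring
    exact_mod_cast h2
  · intro h4 R _ x y z w
    have H := (PlusMatrices.result p hp3).2 h4
    have h1 := trP (-(2 ^ ((p - 3) / 2) * 2)) (2 ^ ((p - 3) / 2)) (by
      intro x y z w
      have h1 := castP x y z w
      rw [H] at h1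
      have h2 : ((Dplus p x y z w : ℤ) : ℂ) = ((-(2 ^ ((p - 3) / 2) * 2) * x +
        2 ^ ((p - 3) / 2) * (w * x - (y + 1) * (z + 1)) : ℤ) : ℂ) := by
        rw [h1]
        push_cast
        ring
      exact_mod_cast h2) R x y z w
    rw [h1]
    push_cast
    ring
  · intro h4 K _ _ s σ ε a' b' hF hab
    have H := (MinusMatrices.result p hp2).1 h4 K s σ ε a' b' hF hab
    have hl : (legendreSym p 2 : ℤ) * legendreSym p 2 = 1 := by
      have : ((2 : ℤ) : ZMod p) ≠ 0 := by
        intro h0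
        have h1 : ((2 : ℕ) : ZMod p) = 0 := by exact_mod_cast h0
        rw [ZMod.natCast_eq_zero_iff] at h1
        have h2 := Nat.le_of_dvd (by norm_num) h1
        have h3 := (Fact.out : p.Prime).two_le
        omega
      have := legendreSym.sq_one p this
      rw [pow_two] at this
      exact this
    have eA : ((-(Dminus p (1 : ℤ) (-1) (-1) 0 : ℤ) : ℤ) : ℚ) = a' := by
      have h1 := castM 1 (-1) (-1) 0
      rw [H] at h1
      have h2 : (((-(Dminus p (1 : ℤ) (-1) (-1) 0 : ℤ) : ℤ) : ℚ) : ℂ) = ((a' : ℚ) : ℂ) := by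
        push_cast at h1 ⊢
        rw [h1]
        ring
      exact_mod_cast h2
    have eB : ((legendreSym p 2 * (Dminus p (0 : ℤ) 0 0 0 : ℤ) : ℤ) : ℚ) = b' := by
      have h1 := castM 0 0 0 0
      rw [H] at h1
      have hlC : ((legendreSym p 2 : ℤ) : ℂ) * ((legendreSym p 2 : ℤ) : ℂ) = 1 := by
        exact_mod_cast hl
      have h2 : (((legendreSym p 2 * (Dminus p (0 : ℤ) 0 0 0 : ℤ) : ℤ) : ℚ) : ℂ) =
          ((b' : ℚ) : ℂ) := by
        push_cast at h1 ⊢
        rw [h1]
        linear_combination (b' : ℂ) * hlC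
      exact_mod_cast h2
    refine ⟨_, _, eA, eB, ?_⟩
    intro R _ x y z w
    have h1 := trM (Dminus p (1 : ℤ) (-1) (-1) 0) (-(Dminus p (0 : ℤ) 0 0 0)) (by
      intro x y z w
      have h1 := castM x y z w
      rw [H] at h1
      have eA' : ((Dminus p (1 : ℤ) (-1) (-1) 0 : ℤ) : ℂ) = -((a' : ℚ) : ℂ) := by
        rw [← eA]; push_cast; ring
      have eB' : ((Dminus p (0 : ℤ) 0 0 0 : ℤ) : ℂ) = ((legendreSym p 2 : ℤ) : ℂ) * ((b' : ℚ) : ℂ) := by
        have hlC : ((legendreSym p 2 : ℤ) : ℂ) * ((legendreSym p 2 : ℤ) : ℂ) = 1 := by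
          exact_mod_cast hl
        rw [← eB]; push_cast
        linear_combination (-((Dminus p (0 : ℤ) 0 0 0 : ℤ) : ℂ)) * hlC
      have h2 : ((Dminus p x y z w : ℤ) : ℂ) = ((Dminus p (1 : ℤ) (-1) (-1) 0 * x +
          -Dminus p (0 : ℤ) 0 0 0 * (w * x - (y + 1) * (z + 1)) : ℤ) : ℂ) := by
        rw [Int.cast_add, Int.cast_mul, Int.cast_mul, Int.cast_neg, eA', eB', h1]
        push_cast
        ring
      exact_mod_cast h2) R x y z w
    rw [h1]
    have hlR : ((legendreSym p 2 : ℤ) : R) * ((legendreSym p 2 : ℤ) : R) = 1 := by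
      exact_mod_cast congrArg (Int.cast : ℤ → R) hl
    push_cast
    linear_combination ((Dminus p (0 : ℤ) 0 0 0 : ℤ) : R) * (w * x - (y + 1) * (z + 1)) * hlR
  · intro h4 R _ x y z w
    have H := (MinusMatrices.result p hp2).2 h4
    have h1 := trM 1 0 (by
      intro x y z w
      have h1 := castM x y z w
      rw [H] at h1
      have h2 : ((Dminus p x y z w : ℤ) : ℂ) = ((1 * x + 0 * (w * x - (y + 1) * (z + 1)) : ℤ) : ℂ) := by
        rw [h1]
        push_cast
        ring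
      exact_mod_cast h2) R x y z w
    rw [h1]
    push_cast
    ring

end Pool.Agent.Results.MP_29211c_nt.EveryCommutativeRing
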